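import Mathlib
import Pool.Agent.Y984.MD.Final

set_option autoImplicit false

/-! The censored walk on monotone subsets of the hypercube: the mixing time is at most
`C(μ) n log n` for monotone sets of density `μ`, with `C(μ) = 10^12 / μ^8`.

Proof (helper984): (1) the censored walk stays above the free walk, so after order `n log n` steps
a point of the censored walk lies, with probability at least `c μ^2` and at all noise scales at
once, where the noise operator applied to `1_A` is large (maximal inequality for the martingales
which reveal the coordinates in random order); (2) for functions supported in `A` a local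
inequality compares the noise form with the energy inside of `A`; (3) with hypercontractivity and
a decomposition in levels this gives a decrease of order `1/n` per step of a functional of the
density of size `log n`; (4) spectral gap and contraction.
Blocks formalised by helper986 (KER, MON), helper244 (LOC), helper980 (SUP, DIS, LEV), helper727
(LAB), helper361 (UPW), helper380 (MAT, FIN), helper984; hypercontractivity from the library W542/Tal. -/

namespace Pool.Agent.Results.MP_52661b_pr.DenseMonotoneSets

open Finset

/-- The hypercube. -/
abbrev Cube (n : ℕ) : Type := Fin n → Bool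

/-- The point obtained by flipping coordinate `i`. -/
def flp {n : ℕ} (x : Cube n) (i : Fin n) : Cube n := Function.update x i (!(x i))

/-- `A` is monotone (up-closed). -/
def IsUp {n : ℕ} (A : Finset (Cube n)) : Prop :=
  ∀ x ∈ A, ∀ y : Cube n, (∀ i, x i ≤ y i) → y ∈ A

/-- The uniform measure of `A` in the cube. -/
noncomputable def dens {n : ℕ} (A : Finset (Cube n)) : ℝ := (A.card : ℝ) / 2 ^ n

/-- The move with coordinate `i`: flip the coordinate if the result is in `A`. -/
def mv {n : ℕ} (A : Finset (Cube n)) (x : Cube n) (i : Fin n) : Cube n :=
  if flp x i ∈ A then flp x i else x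

/-- Transition matrix of the lazy censored walk on `A`. -/
noncomputable def P {n : ℕ} (A : Finset (Cube n)) : Matrix A A ℝ := fun x y =>
  (1 / 2) * (if y = x then 1 else 0) +
    (1 / 2) * (((univ.filter (fun i : Fin n => mv A x.1 i = y.1)).card : ℝ) / n)

/-- Total variation distance. -/
noncomputable def tv {n : ℕ} {A : Finset (Cube n)} (μ ν : A → ℝ) : ℝ :=
  (1 / 2) * ∑ y, |μ y - ν y|

/-- The uniform distribution on `A`. -/
noncomputable def unif {n : ℕ} (A : Finset (Cube n)) : A → ℝ := fun _ => 1 / (A.card : ℝ)

/-- From every start the law after `t` steps is within `1/4` of uniform. -/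
def Mixed {n : ℕ} (A : Finset (Cube n)) (t : ℕ) : Prop :=
  ∀ x : A, tv ((P A ^ t) x) (unif A) ≤ 1 / 4

/-- The mixing time. -/
noncomputable def tmix {n : ℕ} (A : Finset (Cube n)) : ℕ := sInf {t | Mixed A t}

/-- For every `n ≥ 2` and every nonempty monotone set `A` of the hypercube the mixing time of the
lazy censored walk on `A` (which is attained) is at most `10^12 n log n / P(A)^8`. In particular it
is of order at most `n log n` for monotone sets whose density is bounded below. -/
theorem result : ∀ n : ℕ, 2 ≤ n → ∀ A : Finset (Cube n), A.Nonempty → IsUp A →
    Mixed A (tmix A) ∧ (tmix A : ℝ) ≤ 10 ^ 12 * (n * Real.log n) / dens A ^ 8 :=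
  fun n hn A hne hA => Pool.Agent.Y984.MD.final n hn A hne hA

end Pool.Agent.Results.MP_52661b_pr.DenseMonotoneSets
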