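import Mathlib

set_option autoImplicit false

/-! The censored walk on monotone subsets of the hypercube: no bound `C n log n` uniform in the
monotone set. -/

namespace Pool.Agent.Results.MP_52661b_pr.ThinMonotoneSets

open Finset

/-- The hypercube. -/
abbrev Cube (n : ℕ) : Type := Fin n → Bool

/-- The point obtained by flipping coordinate `i`. -/
def flp {n : ℕ} (x : Cube n) (i : Fin n) : Cube n := Function.update x i (!(x i))

/-- `A` is monotone (up-closed). -/
def IsUp {n : ℕ} (A : Finset (Cube n)) : Prop :=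
  ∀ x ∈ A, ∀ y : Cube n, (∀ i, x i ≤ y i) → y ∈ A

/-- The uniform measure of `A` in the cube. -/
noncomputable def dens {n : ℕ} (A : Finset (Cube n)) : ℝ := (A.card : ℝ) / 2 ^ n

/-- The move with coordinate `i`: flip the coordinate if the result is in `A`. -/
def mv {n : ℕ} (A : Finset (Cube n)) (x : Cube n) (i : Fin n) : Cube n :=
  if flp x i ∈ A then flp x i else x

/-- Transition matrix of the lazy censored walk on `A`. -/
noncomputable def P {n : ℕ} (A : Finset (Cube n)) : Matrix A A ℝ := fun x y =>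
  (1 / 2) * (if y = x then 1 else 0) +
    (1 / 2) * (((univ.filter (fun i : Fin n => mv A x.1 i = y.1)).card : ℝ) / n)

/-- Total variation distance. -/
noncomputable def tv {n : ℕ} {A : Finset (Cube n)} (μ ν : A → ℝ) : ℝ :=
  (1 / 2) * ∑ y, |μ y - ν y|

/-- The uniform distribution on `A`. -/
noncomputable def unif {n : ℕ} (A : Finset (Cube n)) : A → ℝ := fun _ => 1 / (A.card : ℝ)

/-- From every start the law after `t` steps is within `1/4` of uniform. -/
def Mixed {n : ℕ} (A : Finset (Cube n)) (t : ℕ) : Prop :=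
  ∀ x : A, tv ((P A ^ t) x) (unif A) ≤ 1 / 4

/-- The mixing time. -/
noncomputable def tmix {n : ℕ} (A : Finset (Cube n)) : ℕ := sInf {t | Mixed A t}

section basic

variable {n : ℕ}

lemma flp_flp (x : Cube n) (i : Fin n) : flp (flp x i) i = x := by
  funext j
  unfold flp
  by_cases h : j = i
  · subst h; simp
  · simp [h]

lemma flp_ne (x : Cube n) (i : Fin n) : flp x i ≠ x := by
  intro h
  have := congrFun h i
  unfold flp at this
  simp at this

lemma flp_inj (x : Cube n) (i j : Fin n) (h : flp x i = flp x j) : i = j := by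
  by_contra hne
  have := congrFun h i
  unfold flp at this
  simp [hne] at this

lemma mv_mem (A : Finset (Cube n)) (x : Cube n) (hx : x ∈ A) (i : Fin n) : mv A x i ∈ A := by
  unfold mv
  split_ifs with h
  · exact h
  · exact hx

/-- the walk is symmetric -/
lemma P_symm (A : Finset (Cube n)) (x y : A) : P A x y = P A y x := by
  by_cases h : y = x
  · subst h; rfl
  · have h' : x ≠ y := fun e => h e.symm
    unfold P
    rw [if_neg h, if_neg h']
    congr 3
    have e : ∀ (a b : A), b ≠ a → univ.filter (fun i : Fin n => mv A a.1 i = b.1) =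
        univ.filter (fun i : Fin n => flp a.1 i = b.1) := by
      intro a b hab
      ext i
      simp only [mem_filter, mem_univ, true_and]
      unfold mv
      split_ifs with h1
      · rfl
      · constructor
        · intro h2
          exact absurd (Subtype.ext h2.symm) hab
        · intro h2
          exact absurd (h2 ▸ b.2) h1
    have e2 : univ.filter (fun i : Fin n => flp x.1 i = y.1) =
        univ.filter (fun i : Fin n => flp y.1 i = x.1) := by
      ext i
      simp only [mem_filter, mem_univ, true_and]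
      constructor
      · intro h1; rw [← h1, flp_flp]
      · intro h1; rw [← h1, flp_flp]
    rw [e x y h, e y x h', e2]

lemma P_nonneg (A : Finset (Cube n)) (x y : A) : 0 ≤ P A x y := by
  unfold P
  positivity

lemma P_row (hn : 0 < n) (A : Finset (Cube n)) (x : A) : ∑ y, P A x y = 1 := by
  unfold P
  rw [sum_add_distrib, ← mul_sum, ← mul_sum, ← sum_div]
  have h1 : ∑ y : A, (if y = x then (1 : ℝ) else 0) = 1 := by simp
  have h2 : ∑ y : A, (((univ.filter (fun i : Fin n => mv A x.1 i = y.1)).card : ℕ) : ℝ) = n := by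
    rw [← Nat.cast_sum]
    congr 1
    have h3 : (univ : Finset (Fin n)).card =
        ∑ y ∈ (univ : Finset A), (univ.filter (fun i : Fin n => (⟨mv A x.1 i, mv_mem A x.1 x.2 i⟩ : A)
          = y)).card := Finset.card_eq_sum_card_fiberwise (fun i _ => mem_univ _)
    rw [card_univ, Fintype.card_fin] at h3
    refine Eq.trans ?_ h3.symm
    refine sum_congr rfl fun y _ => ?_
    refine congrArg Finset.card ?_
    ext i
    simp [Subtype.ext_iff]
  rw [h1, h2]
  have : (n : ℝ) ≠ 0 := by exact_mod_cast hn.ne'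
  field_simp
  norm_num

lemma P_col (hn : 0 < n) (A : Finset (Cube n)) (y : A) : ∑ x, P A x y = 1 := by
  rw [← P_row hn A y]
  exact sum_congr rfl fun x _ => P_symm A x y

lemma Pt_nonneg (A : Finset (Cube n)) (t : ℕ) (x y : A) : 0 ≤ (P A ^ t) x y := by
  induction t generalizing x y with
  | zero =>
    rw [pow_zero, Matrix.one_apply]
    split_ifs <;> norm_num
  | succ t ih =>
    rw [pow_succ, Matrix.mul_apply]
    exact sum_nonneg fun z _ => mul_nonneg (ih x z) (P_nonneg A z y)

lemma Pt_row (hn : 0 < n) (A : Finset (Cube n)) (t : ℕ) (x : A) : ∑ y, (P A ^ t) x y = 1 := by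
  induction t generalizing x with
  | zero => simp [Matrix.one_apply]
  | succ t ih =>
    simp_rw [pow_succ, Matrix.mul_apply]
    rw [sum_comm]
    simp_rw [← mul_sum, P_row hn A, mul_one]
    exact ih x

lemma Pt_col (hn : 0 < n) (A : Finset (Cube n)) (t : ℕ) (y : A) : ∑ x, (P A ^ t) x y = 1 := by
  induction t generalizing y with
  | zero => simp [Matrix.one_apply]
  | succ t ih =>
    simp_rw [pow_succ', Matrix.mul_apply]
    rw [sum_comm]
    simp_rw [← sum_mul, P_col hn A, one_mul]
    exact ih y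

end basic

/-! ### Escape from a set -/

section escape

variable {n : ℕ}

lemma escape (hn : 0 < n) (A : Finset (Cube n)) (S : Finset A) (t : ℕ) :
    ∑ x ∈ S, ∑ y ∈ Sᶜ, (P A ^ t) x y ≤ t * ∑ x ∈ S, ∑ y ∈ Sᶜ, P A x y := by
  induction t with
  | zero =>
    simp only [pow_zero, Nat.cast_zero, zero_mul]
    refine le_of_eq (sum_eq_zero fun x hx => sum_eq_zero fun y hy => ?_)
    rw [Matrix.one_apply, if_neg]
    rintro rfl
    exact (mem_compl.1 hy) hx
  | succ t ih =>
    set u : A → ℝ := fun z => ∑ y ∈ Sᶜ, (P A ^ t) z y with hu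
    have hu0 : ∀ z, 0 ≤ u z := fun z => sum_nonneg fun y _ => Pt_nonneg A t z y
    have hu1 : ∀ z, u z ≤ 1 := by
      intro z
      rw [← Pt_row hn A t z]
      exact sum_le_sum_of_subset_of_nonneg (subset_univ _) fun y _ _ => Pt_nonneg A t z y
    have e1 : ∀ x, ∑ y ∈ Sᶜ, (P A ^ (t + 1)) x y = ∑ z, P A x z * u z := by
      intro x
      simp_rw [pow_succ', Matrix.mul_apply, hu, mul_sum]
      exact sum_comm
    have e2 : ∀ x, ∑ z, P A x z * u z ≤ ∑ z ∈ S, P A x z * u z + ∑ z ∈ Sᶜ, P A x z := by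
      intro x
      rw [← sum_add_sum_compl S]
      refine add_le_add le_rfl (sum_le_sum fun z _ => ?_)
      exact mul_le_of_le_one_right (P_nonneg A x z) (hu1 z)
    calc ∑ x ∈ S, ∑ y ∈ Sᶜ, (P A ^ (t + 1)) x y
        ≤ ∑ x ∈ S, (∑ z ∈ S, P A x z * u z + ∑ z ∈ Sᶜ, P A x z) :=
          sum_le_sum fun x _ => (e1 x).le.trans (e2 x)
      _ = ∑ z ∈ S, (∑ x ∈ S, P A x z) * u z + ∑ x ∈ S, ∑ z ∈ Sᶜ, P A x z := by
          rw [sum_add_distrib]
          congr 1
          rw [sum_comm]
          exact sum_congr rfl fun z _ => (sum_mul _ _ _).symm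
      _ ≤ ∑ z ∈ S, u z + ∑ x ∈ S, ∑ z ∈ Sᶜ, P A x z := by
          refine add_le_add (sum_le_sum fun z _ => ?_) le_rfl
          refine mul_le_of_le_one_left (hu0 z) ?_
          rw [← P_col hn A z]
          exact sum_le_sum_of_subset_of_nonneg (subset_univ _) fun x _ _ => P_nonneg A x z
      _ ≤ ((t + 1 : ℕ) : ℝ) * ∑ x ∈ S, ∑ y ∈ Sᶜ, P A x y := by
          push_cast
          linarith

/-- events and total variation -/
lemma tv_event {A : Finset (Cube n)} (μ ν : A → ℝ) (h : ∑ y, μ y = ∑ y, ν y) (B : Finset A) :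
    ∑ y ∈ B, ν y - ∑ y ∈ B, μ y ≤ tv μ ν := by
  have h1 : ∑ y ∈ B, ν y - ∑ y ∈ B, μ y ≤ ∑ y ∈ B, |μ y - ν y| := by
    rw [← sum_sub_distrib]
    refine sum_le_sum fun y _ => ?_
    rw [abs_sub_comm]
    exact le_abs_self _
  have h2 : ∑ y ∈ B, ν y - ∑ y ∈ B, μ y ≤ ∑ y ∈ Bᶜ, |μ y - ν y| := by
    have e1 := sum_add_sum_compl B μ
    have e2 := sum_add_sum_compl B ν
    have : ∑ y ∈ B, ν y - ∑ y ∈ B, μ y = ∑ y ∈ Bᶜ, (μ y - ν y) := by
      rw [sum_sub_distrib]; linarith
    rw [this]
    exact sum_le_sum fun y _ => le_abs_self _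
  have e3 := sum_add_sum_compl B (fun y => |μ y - ν y|)
  unfold tv
  linarith

lemma unif_sum (A : Finset (Cube n)) (hA : A.Nonempty) : ∑ y, unif A y = 1 := by
  unfold unif
  rw [sum_const, card_univ, Fintype.card_coe, nsmul_eq_mul]
  have : (A.card : ℝ) ≠ 0 := by exact_mod_cast (card_pos.2 hA).ne'
  field_simp

/-- if the chain is mixed at time `t`, then `t` is at least a quarter of the inverse bottleneck
ratio of every set of measure less than one half -/
lemma bottleneck (hn : 0 < n) (A : Finset (Cube n)) (hA : A.Nonempty) (S : Finset A)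
    (hS : S.Nonempty) (hhalf : 2 * S.card < A.card) (t : ℕ) (ht : Mixed A t) :
    (S.card : ℝ) / 4 < t * ∑ x ∈ S, ∑ y ∈ Sᶜ, P A x y := by
  have hAc : (0 : ℝ) < A.card := by exact_mod_cast card_pos.2 hA
  have hSc : (0 : ℝ) < S.card := by exact_mod_cast card_pos.2 hS
  have h1 : ∀ x : A, ∑ y ∈ Sᶜ, unif A y - 1 / 4 ≤ ∑ y ∈ Sᶜ, (P A ^ t) x y := by
    intro x
    have := tv_event ((P A ^ t) x) (unif A) (by rw [Pt_row hn, unif_sum A hA]) Sᶜ
    have := ht x
    linarith
  have h2 : (1 : ℝ) / 2 < ∑ y ∈ Sᶜ, unif A y := by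
    have e := sum_add_sum_compl S (unif A)
    rw [unif_sum A hA] at e
    have e2 : ∑ y ∈ S, unif A y = S.card / A.card := by
      unfold unif
      rw [sum_const, nsmul_eq_mul]
      ring
    have e3 : (S.card : ℝ) / A.card < 1 / 2 := by
      rw [div_lt_div_iff₀ hAc (by norm_num)]
      have : (2 : ℝ) * S.card < A.card := by exact_mod_cast hhalf
      linarith
    linarith
  have h3 : (S.card : ℝ) / 4 < ∑ x ∈ S, ∑ y ∈ Sᶜ, (P A ^ t) x y := by
    calc (S.card : ℝ) / 4 = ∑ x ∈ S, (1 / 4 : ℝ) := by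
          rw [sum_const, nsmul_eq_mul]; ring
      _ < ∑ x ∈ S, ∑ y ∈ Sᶜ, (P A ^ t) x y := by
          refine sum_lt_sum_of_nonempty hS fun x _ => ?_
          have := h1 x
          linarith
  exact h3.trans_le (escape hn A S t)

end escape

/-! ### The mixing time is well defined -/

section conv

variable {n : ℕ}

lemma top_mem (A : Finset (Cube n)) (hA : A.Nonempty) (hup : IsUp A) : (fun _ => true) ∈ A := by
  obtain ⟨x, hx⟩ := hA
  exact hup x hx _ fun i => Bool.le_true _

lemma P_diag (A : Finset (Cube n)) (x : A) : 1 / 2 ≤ P A x x := by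
  unfold P
  rw [if_pos rfl]
  have : (0 : ℝ) ≤ (1 / 2) * (((univ.filter (fun i : Fin n => mv A x.1 i = x.1)).card : ℝ) / n) := by
    positivity
  linarith

lemma P_step (A : Finset (Cube n)) (hup : IsUp A) (x : A) (i : Fin n) (hi : x.1 i = false) :
    ∃ y : A, y.1 = flp x.1 i ∧ 1 / (2 * (n : ℝ)) ≤ P A x y := by
  have hmem : flp x.1 i ∈ A := by
    refine hup x.1 x.2 _ fun j => ?_
    unfold flp
    by_cases h : j = i
    · subst h; simp [hi]
    · simp [h]
  refine ⟨⟨flp x.1 i, hmem⟩, rfl, ?_⟩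
  unfold P
  have h1 : 1 ≤ (univ.filter (fun j : Fin n => mv A x.1 j = flp x.1 i)).card := by
    rw [Nat.one_le_iff_ne_zero, ← Nat.pos_iff_ne_zero, card_pos]
    refine ⟨i, ?_⟩
    simp only [mem_filter, mem_univ, true_and]
    unfold mv
    rw [if_pos hmem]
  have h2 : (1 : ℝ) ≤ ((univ.filter (fun j : Fin n => mv A x.1 j = flp x.1 i)).card : ℝ) := by
    exact_mod_cast h1
  have h3 : (0 : ℝ) ≤ (1 / 2) * (if (⟨flp x.1 i, hmem⟩ : A) = x then 1 else 0) := by
    positivity
  have h4 : 1 / (2 * (n : ℝ)) = (1 / 2) * (1 / n) := by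
    rw [one_div, mul_inv]; ring
  rw [h4]
  have h5 : (1 : ℝ) / n ≤ ((univ.filter (fun j : Fin n => mv A x.1 j = flp x.1 i)).card : ℝ) / n := by
    gcongr
  linarith

lemma reach (hn : 0 < n) (A : Finset (Cube n)) (hA : A.Nonempty) (hup : IsUp A) (m : ℕ) :
    ∀ x : A, (univ.filter (fun i => x.1 i = false)).card ≤ m →
      (1 / (2 * (n : ℝ))) ^ m ≤ (P A ^ m) x ⟨fun _ => true, top_mem A hA hup⟩ := by
  have hn1 : (1 : ℝ) ≤ n := by exact_mod_cast hn
  have hc : (1 : ℝ) / (2 * n) ≤ 1 / 2 := by
    rw [div_le_div_iff₀ (by positivity) (by norm_num)]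
    linarith
  have hc0 : (0 : ℝ) ≤ 1 / (2 * n) := by positivity
  induction m with
  | zero =>
    intro x hx
    have h0 : univ.filter (fun i => x.1 i = false) = ∅ := card_eq_zero.1 (Nat.le_zero.1 hx)
    have h1 : x = ⟨fun _ => true, top_mem A hA hup⟩ := by
      apply Subtype.ext
      funext i
      by_contra h
      have : i ∈ univ.filter (fun i => x.1 i = false) := by
        simp only [mem_filter, mem_univ, true_and]
        simpa using h
      rw [h0] at this
      simp at this
    rw [pow_zero, pow_zero, h1, Matrix.one_apply_eq]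
  | succ m ih =>
    intro x hx
    by_cases hx0 : (univ.filter (fun i => x.1 i = false)).card ≤ m
    · -- stay
      rw [pow_succ', pow_succ', Matrix.mul_apply]
      calc 1 / (2 * (n : ℝ)) * (1 / (2 * (n : ℝ))) ^ m
          ≤ P A x x * (P A ^ m) x ⟨fun _ => true, top_mem A hA hup⟩ :=
            mul_le_mul (hc.trans (P_diag A x)) (ih x hx0) (by positivity) (P_nonneg A x x)
        _ ≤ _ := single_le_sum (f := fun j => P A x j *
            (P A ^ m) j ⟨fun _ => true, top_mem A hA hup⟩)
            (fun z _ => mul_nonneg (P_nonneg A x z) (Pt_nonneg A m z _)) (mem_univ x)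
    · have hne : (univ.filter (fun i => x.1 i = false)).Nonempty := by
        rw [← card_pos]; omega
      obtain ⟨i, hi⟩ := hne
      have hi' : x.1 i = false := by simpa using hi
      obtain ⟨y, hy, hPy⟩ := P_step A hup x i hi'
      have hcard : (univ.filter (fun j => y.1 j = false)).card ≤ m := by
        have : univ.filter (fun j => y.1 j = false) =
            (univ.filter (fun j => x.1 j = false)).erase i := by
          ext j
          simp only [mem_filter, mem_univ, true_and, mem_erase, hy]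
          unfold flp
          by_cases h : j = i
          · subst h; simp [hi']
          · simp [h]
        rw [this, card_erase_of_mem hi]
        omega
      rw [pow_succ', pow_succ', Matrix.mul_apply]
      calc 1 / (2 * (n : ℝ)) * (1 / (2 * (n : ℝ))) ^ m
          ≤ P A x y * (P A ^ m) y ⟨fun _ => true, top_mem A hA hup⟩ :=
            mul_le_mul hPy (ih y hcard) (by positivity) (P_nonneg A x y)
        _ ≤ _ := single_le_sum (f := fun j => P A x j *
            (P A ^ m) j ⟨fun _ => true, top_mem A hA hup⟩)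
            (fun z _ => mul_nonneg (P_nonneg A x z) (Pt_nonneg A m z _)) (mem_univ y)

/-- contraction of the oscillation -/
lemma contract (hn : 0 < n) (A : Finset (Cube n)) (T : ℕ) (w : A) (e : ℝ) 
    (he : ∀ x, e ≤ (P A ^ T) x w) (y : A) (j : ℕ) :
    ∃ a b : ℝ, b - a ≤ (1 - e) ^ j ∧ ∀ x, a ≤ (P A ^ (T * j)) x y ∧ (P A ^ (T * j)) x y ≤ b := by
  have he1 : e ≤ 1 := by
    refine (he w).trans ?_
    rw [← Pt_row hn A T w]
    exact single_le_sum (f := fun z => (P A ^ T) w z) (fun z _ => Pt_nonneg A T w z) (mem_univ w)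
  induction j with
  | zero =>
    refine ⟨0, 1, by simp, fun x => ?_⟩
    rw [mul_zero, pow_zero, Matrix.one_apply]
    split_ifs <;> norm_num
  | succ j ih =>
    obtain ⟨a, b, hab, h⟩ := ih
    set g : A → ℝ := fun x => (P A ^ (T * j)) x y with hg
    have key : ∀ x, (P A ^ (T * (j + 1))) x y = ∑ z, (P A ^ T) x z * g z := by
      intro x
      rw [mul_add, mul_one, add_comm, pow_add, Matrix.mul_apply]
    have key2 : ∀ x, ∑ z, (P A ^ T) x z * g z =
        e * g w + ∑ z, ((P A ^ T) x z - (if z = w then e else 0)) * g z := by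
      intro x
      have : ∑ z, (if z = w then e else 0) * g z = e * g w := by simp
      rw [← this, ← sum_add_distrib]
      exact sum_congr rfl fun z _ => by ring
    have hw : ∀ x, ∑ z, ((P A ^ T) x z - (if z = w then e else 0)) = 1 - e := by
      intro x
      rw [sum_sub_distrib, Pt_row hn]
      simp
    have hpos : ∀ x z, 0 ≤ (P A ^ T) x z - (if z = w then e else 0) := by
      intro x z
      split_ifs with hz
      · subst hz
        linarith [he x]
      · linarith [Pt_nonneg A T x z]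
    refine ⟨e * g w + (1 - e) * a, e * g w + (1 - e) * b, ?_, fun x => ⟨?_, ?_⟩⟩
    · rw [pow_succ]
      have : (1 - e) * (b - a) ≤ (1 - e) * (1 - e) ^ j :=
        mul_le_mul_of_nonneg_left hab (by linarith)
      linarith
    · rw [key x, key2 x, ← hw x, sum_mul]
      refine add_le_add le_rfl (sum_le_sum fun z _ => ?_)
      exact mul_le_mul_of_nonneg_left (h z).1 (hpos x z)
    · rw [key x, key2 x, ← hw x, sum_mul]
      refine add_le_add le_rfl (sum_le_sum fun z _ => ?_)
      exact mul_le_mul_of_nonneg_left (h z).2 (hpos x z)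

theorem mixed_exists (hn : 0 < n) (A : Finset (Cube n)) (hA : A.Nonempty) (hup : IsUp A) :
    ∃ t, Mixed A t := by
  have hn1 : (1 : ℝ) ≤ n := by exact_mod_cast hn
  have hAc : (0 : ℝ) < A.card := by exact_mod_cast card_pos.2 hA
  set e : ℝ := (1 / (2 * (n : ℝ))) ^ n with he
  have he0 : 0 < e := by positivity
  have he1 : e ≤ 1 := by
    rw [he]
    apply pow_le_one₀ (by positivity)
    rw [div_le_one (by positivity)]
    linarith
  obtain ⟨j, hj⟩ := exists_pow_lt_of_lt_one (show (0 : ℝ) < 1 / (2 * A.card) by positivity)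
    (show 1 - e < 1 by linarith)
  refine ⟨n * j, fun x => ?_⟩
  have hreach := reach hn A hA hup n
  have hw : ∀ x : A, e ≤ (P A ^ n) x ⟨fun _ => true, top_mem A hA hup⟩ := by
    intro x
    refine hreach x ?_
    exact (card_le_univ _).trans (by simp)
  have hyx : ∀ y, |(P A ^ (n * j)) x y - unif A y| ≤ 1 / (2 * A.card) := by
    intro y
    obtain ⟨a, b, hab, h⟩ := contract hn A n _ e hw y j
    have h1 : ∑ x, (P A ^ (n * j)) x y = 1 := Pt_col hn A _ y
    have h2 : (A.card : ℝ) * a ≤ 1 := by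
      rw [← h1]
      have : ∑ _x : A, a ≤ ∑ x, (P A ^ (n * j)) x y := sum_le_sum fun z _ => (h z).1
      simpa using this
    have h3 : 1 ≤ (A.card : ℝ) * b := by
      rw [← h1]
      have : ∑ x, (P A ^ (n * j)) x y ≤ ∑ _x : A, b := sum_le_sum fun z _ => (h z).2
      simpa using this
    have h4 : a ≤ unif A y := by
      unfold unif
      rw [le_div_iff₀ hAc]
      linarith
    have h5 : unif A y ≤ b := by
      unfold unif
      rw [div_le_iff₀ hAc]
      linarith
    rw [abs_le]
    have := h x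
    constructor <;> linarith
  unfold tv
  have h6 : ∑ y : A, |(P A ^ (n * j)) x y - unif A y| ≤ ∑ _y : A, 1 / (2 * (A.card : ℝ)) :=
    sum_le_sum fun y _ => hyx y
  have h7 : ∑ _y : A, 1 / (2 * (A.card : ℝ)) = 1 / 2 := by
    rw [sum_const, card_univ, Fintype.card_coe, nsmul_eq_mul]
    field_simp
  linarith

end conv

/-! ### Two subcubes -/

section cubes

variable {n : ℕ}

/-- The subcube of the points that are `true` on `B`. -/
def sub (B : Finset (Fin n)) : Finset (Cube n) := univ.filter (fun x => ∀ i ∈ B, x i = true)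

lemma mem_sub (B : Finset (Fin n)) (x : Cube n) : x ∈ sub B ↔ ∀ i ∈ B, x i = true := by
  simp [sub]

lemma card_sub (B : Finset (Fin n)) : (sub B).card * 2 ^ B.card = 2 ^ n := by
  classical
  have h1 : sub B = Fintype.piFinset (fun i => if i ∈ B then ({true} : Finset Bool) else univ) := by
    ext x
    rw [mem_sub, Fintype.mem_piFinset]
    refine forall_congr' fun i => ?_
    by_cases h : i ∈ B
    · simp [h]
    · simp [h]
  rw [h1, Fintype.card_piFinset]
  have h2 : ∀ i : Fin n, (if i ∈ B then ({true} : Finset Bool) else univ).card =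
      if i ∈ B then 1 else 2 := by
    intro i
    split_ifs <;> simp
  simp_rw [h2]
  rw [prod_ite, prod_const_one, one_mul, prod_const]
  rw [← pow_add]
  congr 1
  have h3 : (univ.filter (fun i => i ∉ B)).card + (univ.filter (fun i => i ∈ B)).card = n := by
    rw [add_comm, Finset.card_filter_add_card_filter_not, card_univ, Fintype.card_fin]
  have h4 : univ.filter (fun i => i ∈ B) = B := by ext i; simp
  rw [h4] at h3
  exact h3

lemma sub_up (B : Finset (Fin n)) : IsUp (sub B) := by
  intro x hx y hxy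
  rw [mem_sub] at hx ⊢
  intro i hi
  have := hxy i
  rw [hx i hi] at this
  cases h : y i
  · rw [h] at this
    exact absurd this (by decide)
  · rfl

/-- The union of the two subcubes. -/
def two (B C : Finset (Fin n)) : Finset (Cube n) := sub B ∪ sub C

lemma two_up (B C : Finset (Fin n)) : IsUp (two B C) := by
  intro x hx y hxy
  unfold two at hx ⊢
  rw [mem_union] at hx ⊢
  rcases hx with h | h
  · exact Or.inl (sub_up B x h y hxy)
  · exact Or.inr (sub_up C x h y hxy)

lemma sub_inter (B C : Finset (Fin n)) : sub B ∩ sub C = sub (B ∪ C) := by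
  ext x
  rw [mem_inter, mem_sub, mem_sub, mem_sub]
  constructor
  · rintro ⟨h1, h2⟩ i hi
    rcases mem_union.1 hi with h | h
    · exact h1 i h
    · exact h2 i h
  · intro h
    exact ⟨fun i hi => h i (mem_union_left _ hi), fun i hi => h i (mem_union_right _ hi)⟩

lemma two_nonempty (B C : Finset (Fin n)) : (two B C).Nonempty :=
  ⟨fun _ => true, by unfold two; rw [mem_union, mem_sub]; exact Or.inl fun _ _ => rfl⟩

/-- The boundary flow out of `sub B \ sub C`. -/
lemma flow (B C : Finset (Fin n)) :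
    ∑ x ∈ univ.filter (fun x : two B C => x.1 ∉ sub C),
      ∑ y ∈ (univ.filter (fun x : two B C => x.1 ∉ sub C))ᶜ, P (two B C) x y ≤
      (1 / 2) * ((C.card * (sub (B ∪ C)).card : ℕ) : ℝ) / n := by
  classical
  set S := univ.filter (fun x : two B C => x.1 ∉ sub C) with hS
  have e1 : ∀ x ∈ S, ∀ y ∈ Sᶜ, P (two B C) x y =
      (1 / 2) * (((univ.filter (fun i : Fin n => mv (two B C) x.1 i = y.1)).card : ℝ) / n) := by
    intro x hx y hy
    unfold P
    rw [if_neg, mul_zero, zero_add]
    rintro rfl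
    exact (mem_compl.1 hy) hx
  have e2 : ∑ x ∈ S, ∑ y ∈ Sᶜ, P (two B C) x y =
      (1 / 2) * ((∑ x ∈ S, ∑ y ∈ Sᶜ,
        (univ.filter (fun i : Fin n => mv (two B C) x.1 i = y.1)).card : ℕ) : ℝ) / n := by
    push_cast
    rw [mul_sum, sum_div]
    refine sum_congr rfl fun x hx => ?_
    rw [mul_sum, sum_div]
    refine sum_congr rfl fun y hy => ?_
    rw [e1 x hx y hy]
    ring
  rw [e2]
  have e3 : ∑ x ∈ S, ∑ y ∈ Sᶜ, (univ.filter (fun i : Fin n => mv (two B C) x.1 i = y.1)).card ≤
      C.card * (sub (B ∪ C)).card := by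
    -- count triples
    have f1 : ∑ x ∈ S, ∑ y ∈ Sᶜ, (univ.filter (fun i : Fin n => mv (two B C) x.1 i = y.1)).card =
        (((S ×ˢ Sᶜ) ×ˢ (univ : Finset (Fin n))).filter
          (fun p => mv (two B C) p.1.1.1 p.2 = p.1.2.1)).card := by
      rw [card_filter, sum_product, sum_product]
      refine sum_congr rfl fun p _ => sum_congr rfl fun p' _ => ?_
      rw [card_filter]
    rw [f1, ← card_product]
    refine card_le_card_of_injOn (fun p => (p.2, p.1.2.1)) ?_ ?_
    · rintro ⟨⟨x, y⟩, i⟩ hp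
      simp only [coe_filter, mem_product, mem_univ, and_true, Set.mem_ofPred_eq] at hp
      obtain ⟨⟨hx, hy⟩, hm⟩ := hp
      have hxC : x.1 ∉ sub C := by simpa [hS] using hx
      have hyC : y.1 ∈ sub C := by
        by_contra h
        exact (mem_compl.1 hy) (by simp [hS, h])
      have hxB : x.1 ∈ sub B := by
        have := x.2
        unfold two at this
        rcases mem_union.1 this with h | h
        · exact h
        · exact absurd h hxC
      have hfl : flp x.1 i = y.1 := by
        unfold mv at hm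
        split_ifs at hm with h
        · exact hm
        · rw [← hm] at hyC
          exact absurd hyC hxC
      -- the coordinate `i` is in `C` and `x i = false`
      rw [mem_sub] at hxC hyC hxB
      push Not at hxC
      obtain ⟨l, hl, hxl⟩ := hxC
      have hli : l = i := by
        by_contra hne
        have h1 := hyC l hl
        rw [← hfl] at h1
        unfold flp at h1
        rw [Function.update_of_ne hne] at h1
        exact hxl h1
      subst hli
      simp only [coe_product, Set.mem_prod, mem_coe]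
      refine ⟨hl, ?_⟩
      rw [mem_sub]
      intro j hj
      rcases mem_union.1 hj with h | h
      · rw [← hfl]
        unfold flp
        by_cases hjl : j = l
        · subst hjl
          exact absurd (hxB j h) hxl
        · rw [Function.update_of_ne hjl]
          exact hxB j h
      · exact hyC j h
    · rintro ⟨⟨x, y⟩, i⟩ hp ⟨⟨x', y'⟩, i'⟩ hp' heq
      simp only [coe_filter, mem_product, mem_univ, and_true, Set.mem_ofPred_eq] at hp hp'
      simp only [Prod.mk.injEq] at heq
      obtain ⟨h1, h2⟩ := heq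
      subst h1
      have hy : y = y' := Subtype.ext h2
      subst hy
      have aux : ∀ z : two B C, z ∈ S → y ∈ Sᶜ → mv (two B C) z.1 i = y.1 → flp y.1 i = z.1 := by
        intro z hz hy hm
        unfold mv at hm
        split_ifs at hm with h
        · rw [← hm, flp_flp]
        · have : z = y := Subtype.ext hm
          rw [this] at hz
          exact absurd hz (mem_compl.1 hy)
      have hx := aux x hp.1.1 hp.1.2 hp.2
      have hx' := aux x' hp'.1.1 hp'.1.2 hp'.2
      have : x = x' := Subtype.ext (hx.symm.trans hx')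
      rw [this]
  have e4 : ((∑ x ∈ S, ∑ y ∈ Sᶜ, (univ.filter (fun i : Fin n => mv (two B C) x.1 i = y.1)).card : ℕ)
      : ℝ) ≤ ((C.card * (sub (B ∪ C)).card : ℕ) : ℝ) := by exact_mod_cast e3
  gcongr

lemma card_S (B C : Finset (Fin n)) :
    (univ.filter (fun x : two B C => x.1 ∉ sub C)).card + (sub (B ∪ C)).card = (sub B).card := by
  have h1 : (univ.filter (fun x : two B C => x.1 ∉ sub C)).card = (sub B \ sub C).card := by
    refine card_bij (fun x _ => x.1) ?_ ?_ ?_
    · intro x hx
      have hxC : x.1 ∉ sub C := by simpa using hx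
      rw [mem_sdiff]
      refine ⟨?_, hxC⟩
      have := x.2
      unfold two at this
      rcases mem_union.1 this with h | h
      · exact h
      · exact absurd h hxC
    · intro x _ y _ h
      exact Subtype.ext h
    · intro x hx
      rw [mem_sdiff] at hx
      exact ⟨⟨x, by unfold two; exact mem_union_left _ hx.1⟩, by simpa using hx.2, rfl⟩
  rw [h1, ← sub_inter]
  exact card_sdiff_add_card_inter _ _

lemma card_two (B C : Finset (Fin n)) :
    (two B C).card + (sub (B ∪ C)).card = (sub B).card + (sub C).card := by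
  rw [← sub_inter]
  exact card_union_add_card_inter _ _

end cubes

/-- Two subcubes of codimension `k`. -/
theorem family (n k : ℕ) (hk : 1 ≤ k) (hkn : 2 * k ≤ n) :
    ∃ A : Finset (Cube n), A.Nonempty ∧ IsUp A ∧ dens A = 2 / 2 ^ k - 1 / 4 ^ k ∧
      (∃ t, Mixed A t) ∧ (n : ℝ) * (2 ^ k - 1) / (2 * k) < tmix A := by
  obtain ⟨B, -, hB⟩ := exists_subset_card_eq (s := (univ : Finset (Fin n))) (n := k)
    (by rw [card_univ, Fintype.card_fin]; omega)
  obtain ⟨C, hCB, hC⟩ := exists_subset_card_eq (s := Bᶜ) (n := k)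
    (by rw [card_compl, Fintype.card_fin, hB]; omega)
  have hdis : Disjoint B C := by
    rw [disjoint_left]
    intro i hi hi'
    exact (mem_compl.1 (hCB hi')) hi
  have hBC : (B ∪ C).card = 2 * k := by
    rw [card_union_of_disjoint hdis, hB, hC]; omega
  have hn : 0 < n := by omega
  obtain ⟨m, hm⟩ : ∃ m, m = (sub (B ∪ C)).card := ⟨_, rfl⟩
  have c0 := card_sub (B ∪ C)
  have c1 := card_sub B
  have c2 := card_sub C
  have c3 := card_S B C
  have c4 := card_two B C
  rw [hBC, ← hm] at c0
  rw [hB] at c1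
  rw [hC] at c2
  rw [← hm] at c3 c4
  have h2k : 0 < 2 ^ k := by positivity
  -- the subcubes have `m 2^k` points
  have hpow : (2 : ℕ) ^ (2 * k) = 2 ^ k * 2 ^ k := by rw [two_mul, pow_add]
  rw [hpow, ← mul_assoc] at c0
  have d1 : (sub B).card = m * 2 ^ k := Nat.eq_of_mul_eq_mul_right h2k (c1.trans c0.symm)
  have d2 : (sub C).card = m * 2 ^ k := Nat.eq_of_mul_eq_mul_right h2k (c2.trans c0.symm)
  have hm0 : 0 < m := by
    rcases Nat.eq_zero_or_pos m with h | h
    · rw [h, zero_mul, zero_mul] at c0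
      have : 0 < 2 ^ n := by positivity
      omega
    · exact h
  rw [d1] at c3 c4
  rw [d2] at c4
  set S := univ.filter (fun x : two B C => x.1 ∉ sub C) with hS
  have hK2 : 2 ≤ 2 ^ k := by
    calc 2 = 2 ^ 1 := by norm_num
      _ ≤ 2 ^ k := Nat.pow_le_pow_right (by norm_num) hk
  have hSpos : 0 < S.card := by nlinarith
  refine ⟨two B C, two_nonempty B C, two_up B C, ?_, mixed_exists hn _ (two_nonempty B C)
    (two_up B C), ?_⟩
  · have e1 : ((two B C).card : ℝ) + m = m * 2 ^ k + m * 2 ^ k := by exact_mod_cast c4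
    have e2 : (m : ℝ) * 2 ^ k * 2 ^ k = 2 ^ n := by exact_mod_cast c0
    have e3 : (4 : ℝ) ^ k = 2 ^ k * 2 ^ k := by
      rw [← mul_pow]; norm_num
    unfold dens
    have e4 : ((two B C).card : ℝ) = m * 2 ^ k + m * 2 ^ k - m := by linarith
    rw [e4, ← e2, e3]
    have : (m : ℝ) ≠ 0 := by exact_mod_cast hm0.ne'
    field_simp
    ring
  · have hmix : Mixed (two B C) (tmix (two B C)) :=
      Nat.sInf_mem (mixed_exists hn _ (two_nonempty B C) (two_up B C))
    have hb := bottleneck hn (two B C) (two_nonempty B C) S (card_pos.1 hSpos) (by omega) _ hmix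
    have hf := flow B C
    rw [← hS, hC, ← hm] at hf
    set t : ℝ := (tmix (two B C) : ℝ) with ht
    have ht0 : 0 ≤ t := by rw [ht]; positivity
    have h3 := hb.trans_le (mul_le_mul_of_nonneg_left hf ht0)
    have e1 : (S.card : ℝ) = m * 2 ^ k - m := by
      have : (S.card : ℝ) + m = m * 2 ^ k := by exact_mod_cast c3
      linarith
    rw [e1] at h3
    push_cast at h3
    have hn' : (0 : ℝ) < n := by exact_mod_cast hn
    have hk' : (0 : ℝ) < k := by exact_mod_cast hk
    have hm' : (0 : ℝ) < m := by exact_mod_cast hm0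
    rw [div_lt_iff₀ (by positivity)]
    have h4 : t * (1 / 2 * (k * m) / n) = (t * (2 * k)) * (m / (4 * n)) := by
      field_simp
      ring
    have h5 : ((m : ℝ) * 2 ^ k - m) / 4 = (n * (2 ^ k - 1)) * (m / (4 * n)) := by
      field_simp
    rw [h4, h5] at h3
    exact lt_of_mul_lt_mul_right h3 (by positivity)

open Filter Asymptotics in
/-- Monotone sets of density at least `(log n)^(-(1+ε))` with large mixing time. -/
theorem large (c ε : ℝ) (hε : 0 < ε) : ∃ n₀ : ℕ, ∀ n : ℕ, n₀ ≤ n →
    ∃ A : Finset (Cube n), A.Nonempty ∧ IsUp A ∧ Real.log n ^ (-(1 + ε)) ≤ dens A ∧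
      (∃ t, Mixed A t) ∧ c * (n * Real.log n) < tmix A := by
  have hlog2 : 0 < Real.log 2 := Real.log_pos (by norm_num)
  set c' : ℝ := max c 1 with hc'
  have hc1 : 1 ≤ c' := le_max_right _ _
  have hcc : c ≤ c' := le_max_left _ _
  set δ : ℝ := Real.log 2 / (8 * c' * (1 + ε)) with hδ
  have hδ0 : 0 < δ := by positivity
  -- eventual inequalities for the logarithm
  have ev1 : ∀ᶠ l : ℝ in atTop, Real.log l ≤ δ * l ^ ε := by
    have h := (isLittleO_log_rpow_atTop hε).bound hδ0
    filter_upwards [h, eventually_ge_atTop (1 : ℝ)] with l hl hl1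
    rw [Real.norm_eq_abs, Real.norm_eq_abs, abs_of_nonneg (Real.log_nonneg hl1),
      abs_of_nonneg (by positivity)] at hl
    exact hl
  have ev2 : ∀ᶠ l : ℝ in atTop, 4 ≤ l := eventually_ge_atTop 4
  have hlogtop : Tendsto (fun n : ℕ => Real.log (n : ℝ)) atTop atTop :=
    Real.tendsto_log_atTop.comp tendsto_natCast_atTop_atTop
  have ev3 : ∀ᶠ n : ℕ in atTop, 2 * Real.log n ^ (1 + ε) ≤ n := by
    have h := (isLittleO_log_rpow_rpow_atTop (1 + ε) (show (0 : ℝ) < 1 by norm_num)).bound
      (show (0 : ℝ) < 1 / 2 by norm_num)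
    have h2 := tendsto_natCast_atTop_atTop (R := ℝ) |>.eventually h
    filter_upwards [h2, eventually_ge_atTop 1] with n hn hn1
    have hn1' : (1 : ℝ) ≤ n := by exact_mod_cast hn1
    rw [Real.norm_eq_abs, Real.norm_eq_abs, Real.rpow_one,
      abs_of_nonneg (Real.rpow_nonneg (Real.log_nonneg hn1') _), abs_of_nonneg (by positivity)] at hn
    linarith
  have ev := (hlogtop.eventually (ev1.and ev2)).and ev3
  obtain ⟨n₀, hn₀⟩ := eventually_atTop.1 ev
  refine ⟨n₀, fun n hn => ?_⟩
  obtain ⟨⟨h1, h2⟩, h3⟩ := hn₀ n hn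
  set l : ℝ := Real.log n with hl
  have hl0 : 0 < l := by linarith
  have hn0 : (0 : ℝ) < n := by
    have : 0 < l ^ (1 + ε) := Real.rpow_pos_of_pos hl0 _
    linarith
  set u : ℝ := (1 + ε) * Real.logb 2 l with hu
  have hlogb : 2 ≤ Real.logb 2 l := by
    rw [Real.le_logb_iff_rpow_le (by norm_num) hl0]
    norm_num
    exact h2
  have hu2 : 1 ≤ u := by nlinarith
  set k : ℕ := ⌊u⌋₊ with hk
  have hk1 : 1 ≤ k := Nat.le_floor (by exact_mod_cast hu2)
  have hku : (k : ℝ) ≤ u := Nat.floor_le (by linarith)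
  have huk : u < k + 1 := Nat.lt_floor_add_one u
  have hlu : (2 : ℝ) ^ u = l ^ (1 + ε) := by
    rw [hu, mul_comm, Real.rpow_mul (by norm_num), Real.rpow_logb (by norm_num) (by norm_num) hl0]
  have hup : (2 : ℝ) ^ k ≤ l ^ (1 + ε) := by
    rw [← hlu, ← Real.rpow_natCast]
    exact Real.rpow_le_rpow_of_exponent_le (by norm_num) hku
  have hlow : l ^ (1 + ε) ≤ 2 * 2 ^ k := by
    rw [← hlu]
    have : (2 : ℝ) ^ u ≤ 2 ^ ((k : ℝ) + 1) :=
      Real.rpow_le_rpow_of_exponent_le (by norm_num) huk.le
    rw [Real.rpow_add (by norm_num), Real.rpow_one, Real.rpow_natCast] at this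
    linarith
  have h2kn : 2 * k ≤ n := by
    have h4 : (k : ℝ) ≤ 2 ^ k := by exact_mod_cast (Nat.lt_two_pow_self).le
    have h5 : (2 : ℝ) * k ≤ n := by linarith
    exact_mod_cast h5
  obtain ⟨A, hA1, hA2, hA3, hA4, hA5⟩ := family n k hk1 h2kn
  refine ⟨A, hA1, hA2, ?_, hA4, ?_⟩
  · rw [hA3, Real.rpow_neg hl0.le]
    have e1 : (4 : ℝ) ^ k = 2 ^ k * 2 ^ k := by
      rw [← mul_pow]; norm_num
    have e2 : (1 : ℝ) ≤ 2 ^ k := one_le_pow₀ (by norm_num)
    have e3 : (1 : ℝ) / 4 ^ k ≤ 1 / 2 ^ k := by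
      rw [e1]
      apply one_div_le_one_div_of_le (by positivity)
      nlinarith
    have e4 : (l ^ (1 + ε))⁻¹ ≤ 1 / 2 ^ k := by
      rw [one_div]
      exact inv_anti₀ (by positivity) hup
    have e5 : (2 : ℝ) / 2 ^ k = 1 / 2 ^ k + 1 / 2 ^ k := by ring
    linarith
  · refine lt_of_le_of_lt ?_ hA5
    have hk' : (0 : ℝ) < k := by exact_mod_cast hk1
    rw [le_div_iff₀ (by positivity)]
    have hlogb' : Real.logb 2 l = Real.log l / Real.log 2 := rfl
    have f1 : 2 * (k : ℝ) * c' * l ≤ 1 / 4 * l ^ (1 + ε) := by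
      have g1 : (k : ℝ) ≤ (1 + ε) * (δ * l ^ ε / Real.log 2) := by
        refine hku.trans ?_
        rw [hu, hlogb']
        apply mul_le_mul_of_nonneg_left _ (by linarith)
        exact div_le_div_of_nonneg_right h1 hlog2.le
      have g2 : l ^ (1 + ε) = l * l ^ ε := by
        rw [Real.rpow_add hl0, Real.rpow_one]
      have g3 : (1 + ε) * (δ * l ^ ε / Real.log 2) = l ^ ε / (8 * c') := by
        rw [hδ]
        field_simp
      rw [g3] at g1
      calc 2 * (k : ℝ) * c' * l ≤ 2 * (l ^ ε / (8 * c')) * c' * l := by gcongr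
        _ = 1 / 4 * l ^ (1 + ε) := by
          rw [g2]
          field_simp
          ring
    have f2 : (4 : ℝ) ≤ l ^ (1 + ε) := by
      calc (4 : ℝ) ≤ l := h2
        _ = l ^ (1 : ℝ) := (Real.rpow_one l).symm
        _ ≤ l ^ (1 + ε) := Real.rpow_le_rpow_of_exponent_le (by linarith) (by linarith)
    have f3 : 2 * (k : ℝ) * c' * l ≤ 2 ^ k - 1 := by
      have : l ^ (1 + ε) / 2 ≤ 2 ^ k := by linarith
      linarith
    have f4 : c * (n * l) * (2 * k) ≤ n * (2 * (k : ℝ) * c' * l) := by
      have : c * (n * l) * (2 * k) = n * (2 * (k : ℝ) * c * l) := by ring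
      rw [this]
      gcongr
    exact f4.trans (mul_le_mul_of_nonneg_left f3 hn0.le)

/-- The bound of Q1 fails: there is no absolute constant `c` with `t_mix(A) ≤ c n log n` for all
nonempty monotone sets `A`; it even fails for all large `n` and sets of density at least
`(log n)^(-(1+ε))`. More precisely, for `1 ≤ k ≤ n / 2` there is a monotone set of density
`2^(1-k) - 4^(-k)` whose mixing time is larger than `n (2^k - 1) / (2 k)`. -/
theorem result :
    (¬ ∃ c : ℝ, ∀ n : ℕ, 2 ≤ n → ∀ A : Finset (Cube n), A.Nonempty → IsUp A →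
      (tmix A : ℝ) ≤ c * (n * Real.log n)) ∧
    (∀ c ε : ℝ, 0 < ε → ∃ n₀ : ℕ, ∀ n : ℕ, n₀ ≤ n →
      ∃ A : Finset (Cube n), A.Nonempty ∧ IsUp A ∧ Real.log n ^ (-(1 + ε)) ≤ dens A ∧
        (∃ t, Mixed A t) ∧ c * (n * Real.log n) < tmix A) ∧
    (∀ n k : ℕ, 1 ≤ k → 2 * k ≤ n →
      ∃ A : Finset (Cube n), A.Nonempty ∧ IsUp A ∧ dens A = 2 / 2 ^ k - 1 / 4 ^ k ∧
        (∃ t, Mixed A t) ∧ (n : ℝ) * (2 ^ k - 1) / (2 * k) < tmix A) := by
  refine ⟨?_, large, family⟩
  rintro ⟨c, hc⟩
  obtain ⟨n₀, h⟩ := large c 1 one_pos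
  obtain ⟨A, hA1, hA2, -, -, hA5⟩ := h (max n₀ 2) (le_max_left _ _)
  exact absurd (hc _ (le_max_right _ _) A hA1 hA2) (not_le.2 hA5)

end Pool.Agent.Results.MP_52661b_pr.ThinMonotoneSets
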